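import Pool.Agent.helper91.HZ.Spec

/-!
# Row hz:BW3 (MP_2e0e07_nt): the relation for the reductions
-/

set_option autoImplicit false

namespace Pool.Agent.HZ

open Matrix Polynomial Pool.Agent.GO Pool.Agent.AR Pool.Agent.RG MeasureTheory NumberField

universe v

theorem BW3_coeff {R : Type*} [CommRing R] [Nontrivial R] (M : Matrix (Fin 2) (Fin 2) R) :
    M.charpoly.coeff 1 = - M.trace ∧ M.charpoly.coeff 0 = M.det := by
  rw [Matrix.charpoly_fin_two]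
  constructor
  · simp [Polynomial.coeff_C, Polynomial.coeff_X_pow]
  · simp [Polynomial.coeff_X, Polynomial.coeff_C, Polynomial.coeff_X_pow]

theorem BW3_root {R : Type*} [CommRing R] [Nontrivial R] (M : Matrix (Fin 2) (Fin 2) R) (α β : R)
    (h1 : α + β = M.trace) (h2 : α * β = M.det) : M.charpoly.IsRoot α := by
  rw [Matrix.charpoly_fin_two, Polynomial.IsRoot, ← h1, ← h2]
  simp only [Polynomial.eval_add, Polynomial.eval_sub, Polynomial.eval_mul, Polynomial.eval_pow, Polynomial.eval_X,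
    Polynomial.eval_C]
  ring

theorem BW3 (h1 : EXT_stmt.{v}) : BW3_stmt.{v} := by
  intro Γ E _ _ _ F _ _ ι κ _ _ φ m _ _ V ρ W σ P Q U a b had s hs hP hQ hPr hQr
  obtain ⟨B, Φ, hB1, hB2⟩ := h1 ι φ
  obtain ⟨α, β, γ, ε, hα0, hβ0, hsum, hprod, hγ, hε, hrel⟩ := ad_roots V ρ U a b had s hs
  have hPm : P.Monic := by
    have h2 := Matrix.charpoly_monic (V s)
    rw [hP] at h2
    exact (Polynomial.monic_map_iff).1 h2
  have hQm : Q.Monic := by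
    have h2 := Matrix.charpoly_monic (ρ s)
    rw [hQ] at h2
    exact (Polynomial.monic_map_iff).1 h2
  have hαr : (Q.map ι).IsRoot α := by
    rw [← hQ]
    exact BW3_root _ α β hsum hprod
  have hβr : (Q.map ι).IsRoot β := by
    rw [← hQ]
    exact BW3_root _ β α (by rw [add_comm]; exact hsum) (by rw [mul_comm]; exact hprod)
  obtain ⟨hα, -⟩ := hB2 Q _ hQm hQr α hαr
  obtain ⟨hβ, -⟩ := hB2 Q _ hQm hQr β hβr
  have hγ' : ∀ l, ∃ h : γ l ∈ B, (W s).charpoly.IsRoot (Φ ⟨γ l, h⟩) := fun l =>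
    hB2 P _ hPm hPr (γ l) (by rw [← hP]; exact hγ l)
  have hε' : ∀ l, ∃ h : ε l ∈ B, (W s).charpoly.IsRoot (Φ ⟨ε l, h⟩) := fun l =>
    hB2 P _ hPm hPr (ε l) (by rw [← hP]; exact hε l)
  choose gγ gγ' using hγ'
  choose gε gε' using hε'
  obtain ⟨c1, d1⟩ := hB1 _ _ (hQr 1)
  obtain ⟨c0, d0⟩ := hB1 _ _ (hQr 0)
  have e1 : (ρ s).charpoly.coeff 1 = ι (Q.coeff 1) := by rw [hQ, Polynomial.coeff_map]
  have e0 : (ρ s).charpoly.coeff 0 = ι (Q.coeff 0) := by rw [hQ, Polynomial.coeff_map]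
  rw [(BW3_coeff (ρ s)).1] at e1
  rw [(BW3_coeff (ρ s)).2] at e0
  rw [(BW3_coeff (σ s)).1] at d1
  rw [(BW3_coeff (σ s)).2] at d0
  refine ⟨Φ ⟨α, hα⟩, Φ ⟨β, hβ⟩, fun l => Φ ⟨γ l, gγ l⟩, fun l => Φ ⟨ε l, gε l⟩, ?_, ?_, gγ', gε', ?_⟩
  · have h2 : (⟨α, hα⟩ : B) + ⟨β, hβ⟩ = - ⟨ι (Q.coeff 1), c1⟩ := by
      refine Subtype.ext ?_
      show α + β = - ι (Q.coeff 1)
      rw [← e1, neg_neg]
      exact hsum
    rw [← map_add, h2, map_neg, d1, neg_neg]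
  · have h2 : (⟨α, hα⟩ : B) * ⟨β, hβ⟩ = ⟨ι (Q.coeff 0), c0⟩ := by
      refine Subtype.ext ?_
      show α * β = ι (Q.coeff 0)
      rw [← e0]
      exact hprod
    rw [← map_mul, h2, d0]
  · have h2 : (⟨α, hα⟩ : B) * ∏ l, (⟨ε l, gε l⟩ : B) = ⟨β, hβ⟩ * ∏ l, (⟨γ l, gγ l⟩ : B) := by
      refine Subtype.ext ?_
      have q1 : ((∏ l, (⟨ε l, gε l⟩ : B) : B) : F) = ∏ l, ε l := map_prod B.subtype _ _
      have q2 : ((∏ l, (⟨γ l, gγ l⟩ : B) : B) : F) = ∏ l, γ l := map_prod B.subtype _ _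
      rw [Subring.coe_mul, Subring.coe_mul, q1, q2]
      show α * ∏ l, ε l = β * ∏ l, γ l
      rw [← hrel, ← mul_assoc, mul_div_cancel₀ _ hβ0]
    have h3 := congrArg Φ h2
    rw [map_mul, map_mul, map_prod, map_prod] at h3
    exact h3

end Pool.Agent.HZ
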